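import Pool.Agent.K1H70.KG.Stm

/-! The linear algebra step for determinants of words in several matrices (helper67, for helper70,
project KG). -/

set_option autoImplicit false

namespace Pool.Agent.K1H67.KG.Det

open Finset Pool.Agent.K1H70.KG

section

variable {R : Type} [CommRing R] {α : Type} {m : ℕ}

/-- the rest of a vector -/
def tl (v : Fin (m + 1) → R) : Fin m → R := fun a => v a.succ

/-- a word applied to a vector -/
def wf {k : ℕ} (A : α → Matrix (Fin k) (Fin k) R) (w : List α) (y : Fin k → R) : Fin k → R :=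
  w.foldr (fun b y => (A b).mulVec y) y

theorem tl_mulVec (A : Matrix (Fin (m + 1)) (Fin (m + 1)) R) (y : Fin (m + 1) → R) :
    tl (A.mulVec y) = (A.submatrix Fin.succ Fin.succ).mulVec (tl y) +
      y 0 • (fun a : Fin m => A a.succ 0) := by
  funext a
  simp only [tl, Matrix.mulVec, dotProduct, Fin.sum_univ_succ, Pi.add_apply, Pi.smul_apply,
    smul_eq_mul, Matrix.submatrix_apply]
  ring

theorem tl_wf (A : α → Matrix (Fin (m + 1)) (Fin (m + 1)) R) (w : List α)
    (y : Fin (m + 1) → R) :
    tl (wf A w y) = wf (fun b => (A b).submatrix Fin.succ Fin.succ) w (tl y) +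
      ∑ i : Fin w.length, (wf A (w.drop (i + 1)) y) 0 •
        wf (fun b => (A b).submatrix Fin.succ Fin.succ) (w.take i)
          (fun a : Fin m => A w[i] a.succ 0) := by
  induction w with
  | nil => simp [wf]
  | cons b w ih =>
    have h1 : wf A (b :: w) y = (A b).mulVec (wf A w y) := rfl
    rw [h1, tl_mulVec, ih, Matrix.mulVec_add, Matrix.mulVec_sum]
    have h2 : (∑ i : Fin (b :: w).length, (wf A ((b :: w).drop (i + 1)) y) 0 •
        wf (fun b => (A b).submatrix Fin.succ Fin.succ) ((b :: w).take i)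
          (fun a : Fin m => A (b :: w)[i] a.succ 0)) =
        (wf A w y) 0 • (fun a : Fin m => A b a.succ 0) +
        ∑ i : Fin w.length, (wf A (w.drop (i + 1)) y) 0 •
          ((A b).submatrix Fin.succ Fin.succ).mulVec
            (wf (fun b => (A b).submatrix Fin.succ Fin.succ) (w.take i)
              (fun a : Fin m => A w[i] a.succ 0)) := by
      have h3 := Fin.sum_univ_succ (n := w.length) (fun i : Fin (w.length + 1) =>
        (wf A ((b :: w).drop (i + 1)) y) 0 •
        wf (fun b => (A b).submatrix Fin.succ Fin.succ) ((b :: w).take i)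
          (fun a : Fin m => A ((b :: w)[(i : ℕ)]'(by simpa using i.2)) a.succ 0))
      exact h3
    rw [h2]
    simp only [Matrix.mulVec_smul]
    have h4 : wf (fun b => (A b).submatrix Fin.succ Fin.succ) (b :: w) (tl y) =
      ((A b).submatrix Fin.succ Fin.succ).mulVec
        (wf (fun b => (A b).submatrix Fin.succ Fin.succ) w (tl y)) := rfl
    rw [h4]
    abel

end

section

variable {α ρ : Type} {m : ℕ} {ω : α → ℕ} {d : ρ → ℕ} {j : ρ}

/-- the embedding of the rows -/
def φ : T ω (dn ω d j) → T ω d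
  | ⟨(w, Sum.inl l), h⟩ => ⟨(w, l.1), h⟩
  | ⟨(w, Sum.inr b), h⟩ => ⟨(w ++ [b], j), by
      have h1 : (w.map ω).sum < d j - ω b := h
      simp only [List.map_append, List.sum_append, List.map_cons, List.map_nil, List.sum_cons,
        List.sum_nil, add_zero]
      omega⟩

theorem φ_inj : Function.Injective (φ : T ω (dn ω d j) → T ω d) := by
  rintro ⟨⟨w, l | b⟩, h⟩ ⟨⟨w', l' | b'⟩, h'⟩ e
  · have h1 := congrArg Subtype.val e
    simp only [φ, Prod.mk.injEq] at h1
    obtain ⟨h2, h3⟩ := h1
    subst h2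
    have h4 : l = l' := Subtype.ext h3
    subst h4
    rfl
  · have h1 := congrArg Subtype.val e
    simp only [φ, Prod.mk.injEq] at h1
    exact absurd h1.2 l.2
  · have h1 := congrArg Subtype.val e
    simp only [φ, Prod.mk.injEq] at h1
    exact absurd h1.2.symm l'.2
  · have h1 := congrArg Subtype.val e
    simp only [φ, Prod.mk.injEq, and_true] at h1
    have h2 := List.append_inj' h1 rfl
    obtain ⟨h3, h4⟩ := h2
    subst h3
    simp only [List.cons.injEq, and_true] at h4
    subst h4
    rfl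

theorem φ_ne (hj : 0 < d j) (q : T ω (dn ω d j)) :
    φ q ≠ (⟨([], j), by simpa using hj⟩ : T ω d) := by
  obtain ⟨⟨w, l | b⟩, h⟩ := q
  · intro e
    have h1 := congrArg Subtype.val e
    simp only [φ, Prod.mk.injEq] at h1
    exact l.2 h1.2
  · intro e
    have h1 := congrArg Subtype.val e
    simp [φ] at h1

theorem exists_ψ (e : T ω d ≃ Fin (m + 1)) (hj : 0 < d j) (e' : T ω (dn ω d j) ≃ Fin m) :
    ∃ ψ : Fin m ≃ T ω (dn ω d j),
      ∀ b, (e ⟨([], j), by simpa using hj⟩).succAbove b = e (φ (ψ b)) := by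
  haveI : Fintype (T ω (dn ω d j)) := Fintype.ofEquiv _ e'.symm
  have h1 : ∀ q : T ω (dn ω d j),
      ∃ b, (e ⟨([], j), by simpa using hj⟩).succAbove b = e (φ q) := by
    intro q
    apply Fin.exists_succAbove_eq
    intro h
    exact φ_ne hj q (e.injective h)
  choose g hg using h1
  have hinj : Function.Injective g := by
    intro q q' h
    apply φ_inj
    apply e.injective
    rw [← hg, ← hg, h]
  have hbij : Function.Bijective g := by
    rw [Fintype.bijective_iff_injective_and_card]
    exact ⟨hinj, Fintype.card_congr e'⟩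
  refine ⟨(Equiv.ofBijective g hbij).symm, fun b => ?_⟩
  rw [← hg]
  congr 1
  exact ((Equiv.ofBijective g hbij).apply_symm_apply b).symm

variable {R : Type} [CommRing R]

/-- the vector to which the word of `q` is applied -/
def yq (x : V α ρ (m + 1) → R) : Nx α j → Fin (m + 1) → R
  | Sum.inl l => mv x l.1
  | Sum.inr b => (mA x b).mulVec (mv x j)

theorem wv_φ (x : V α ρ (m + 1) → R) (q : T ω (dn ω d j)) :
    wv x (φ q).1.1 (φ q).1.2 = wf (mA x) q.1.1 (yq x q.1.2) := by
  obtain ⟨⟨w, l | b⟩, h⟩ := q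
  · rfl
  · simp [φ, wv, wf, yq, List.foldr_append]

theorem tl_yq (x : V α ρ (m + 1) → R) (hx : ∀ a, x (a, Sum.inr j) = if a = 0 then 1 else 0)
    (t : Nx α j) : tl (yq x t) = mv (nx j x) t := by
  rcases t with l | b
  · rfl
  · show tl ((mA x b).mulVec (mv x j)) = _
    have h0 : tl (mv x j) = 0 := by
      funext a
      simp [tl, mv, hx]
    have h1 : mv x j 0 = 1 := by simp [mv, hx]
    rw [tl_mulVec, h0, h1, Matrix.mulVec_zero, zero_add, one_smul]
    rfl

theorem mA_nx (x : V α ρ (m + 1) → R) (b : α) :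
    (mA x b).submatrix Fin.succ Fin.succ = mA (nx j x) b := rfl

/-- the rows which are added to the row `q` -/
def ι (hd : ∀ l, d l ≤ d j) (q : T ω (dn ω d j)) (i : Fin q.1.1.length) : T ω (dn ω d j) :=
  ⟨(q.1.1.take i, Sum.inr q.1.1[i]), by
    have h1 : (q.1.1.map ω).sum < dn ω d j q.1.2 := q.2
    have h2 : dn ω d j q.1.2 ≤ d j := by
      rcases q.1.2 with l | b
      · exact hd l.1
      · exact Nat.sub_le _ _
    have h3 : ((q.1.1.take (i + 1)).map ω).sum ≤ (q.1.1.map ω).sum := by
      conv_rhs => rw [← List.take_append_drop (i + 1) q.1.1]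
      rw [List.map_append, List.sum_append]
      exact Nat.le_add_right _ _
    have h4 : ((q.1.1.take (i + 1)).map ω).sum = ((q.1.1.take i).map ω).sum + ω q.1.1[i] := by
      rw [List.take_add_one]
      have : q.1.1[(i : ℕ)]? = some q.1.1[i] := List.getElem?_eq_getElem i.2
      rw [this]
      simp
    show ((q.1.1.take i).map ω).sum < d j - ω q.1.1[i]
    omega⟩

theorem len_ι (hd : ∀ l, d l ≤ d j) (q : T ω (dn ω d j)) (i : Fin q.1.1.length) :
    (ι hd q i).1.1.length = i := by
  simp only [ι, List.length_take]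
  have := i.2
  omega

theorem ι_inj (hd : ∀ l, d l ≤ d j) (q : T ω (dn ω d j)) : Function.Injective (ι hd q) := by
  intro i i' h
  apply Fin.ext
  rw [← len_ι hd q i, ← len_ι hd q i', h]

open Classical in
/-- the matrix of the combinations -/
noncomputable def N (hd : ∀ l, d l ≤ d j) (x : V α ρ (m + 1) → R) :
    Matrix (T ω (dn ω d j)) (T ω (dn ω d j)) R :=
  Matrix.of fun q q' => if ∃ i, ι hd q i = q' then
    (wf (mA x) (q.1.1.drop (q'.1.1.length + 1)) (yq x q.1.2)) 0 else 0

/-- the new rows -/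
def K' (x : V α ρ (m + 1) → R) : Matrix (T ω (dn ω d j)) (Fin m) R :=
  Matrix.of fun q a => wv (nx j x) q.1.1 q.1.2 a

theorem row [Fintype (T ω (dn ω d j))] (hd : ∀ l, d l ≤ d j) (x : V α ρ (m + 1) → R)
    (hx : ∀ a, x (a, Sum.inr j) = if a = 0 then 1 else 0) (q : T ω (dn ω d j)) (c : Fin m) :
    wv x (φ q).1.1 (φ q).1.2 c.succ = K' x q c + ∑ q' : T ω (dn ω d j), N hd x q q' * K' x q' c := by
  have h1 : wv x (φ q).1.1 (φ q).1.2 c.succ = tl (wf (mA x) q.1.1 (yq x q.1.2)) c := by
    rw [wv_φ]; rfl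
  rw [h1, tl_wf, tl_yq x hx]
  simp only [mA_nx (j := j), Pi.add_apply, Finset.sum_apply, Pi.smul_apply, smul_eq_mul]
  congr 1
  refine Fintype.sum_of_injective (ι hd q) (ι_inj hd q) _ _ ?_ ?_
  · intro q' hq'
    have : ¬ ∃ i, ι hd q i = q' := fun ⟨i, hi⟩ => hq' ⟨i, hi⟩
    simp only [N, Matrix.of_apply, if_neg this, zero_mul]
  · intro i
    have h2 : ∃ i', ι hd q i' = ι hd q i := ⟨i, rfl⟩
    simp only [N, Matrix.of_apply, if_pos h2, len_ι]
    rfl

theorem det_one_add_N [Fintype (T ω (dn ω d j))] [DecidableEq (T ω (dn ω d j))]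
    (hd : ∀ l, d l ≤ d j) (x : V α ρ (m + 1) → R) :
    (1 + (N hd x : Matrix (T ω (dn ω d j)) (T ω (dn ω d j)) R)).det = 1 := by
  have hN0 : ∀ q q' : T ω (dn ω d j), q.1.1.length ≤ q'.1.1.length → N hd x q q' = 0 := by
    intro q q' h
    have : ¬ ∃ i, ι hd q i = q' := by
      rintro ⟨i, rfl⟩
      rw [len_ι] at h
      have := i.2
      omega
    simp only [N, Matrix.of_apply, if_neg this]
  have hb : (1 + (N hd x : Matrix (T ω (dn ω d j)) (T ω (dn ω d j)) R)).BlockTriangular
      (fun q => OrderDual.toDual (q.1.1.length : ℕ)) := by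
    intro q q' h
    have h1 : q.1.1.length < q'.1.1.length := h
    have h2 : q ≠ q' := by
      rintro rfl
      exact lt_irrefl _ h1
    rw [Matrix.add_apply, Matrix.one_apply_ne h2, zero_add]
    exact hN0 q q' h1.le
  rw [hb.det]
  apply Finset.prod_eq_one
  intro a _
  have : (1 + (N hd x : Matrix (T ω (dn ω d j)) (T ω (dn ω d j)) R)).toSquareBlock
      (fun q => OrderDual.toDual (q.1.1.length : ℕ)) a = 1 := by
    ext q q'
    have h1 : (q : T ω (dn ω d j)).1.1.length = (q' : T ω (dn ω d j)).1.1.length := by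
      have h2 := q.2
      have h3 := q'.2
      have h4 : OrderDual.toDual ((q : T ω (dn ω d j)).1.1.length : ℕ) =
        OrderDual.toDual ((q' : T ω (dn ω d j)).1.1.length : ℕ) := h2.trans h3.symm
      exact OrderDual.toDual.injective h4
    rw [Matrix.toSquareBlock_def, Matrix.of_apply, Matrix.add_apply, hN0 _ _ h1.le, add_zero,
      Matrix.one_apply, Matrix.one_apply]
    by_cases h : q = q'
    · rw [if_pos h, if_pos (congrArg Subtype.val h)]
    · rw [if_neg h, if_neg (fun h' => h (Subtype.ext h'))]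
  rw [this, Matrix.det_one]

end

end Pool.Agent.K1H67.KG.Det

namespace Pool.Agent.K1H67.KG

open Finset Pool.Agent.K1H70.KG

theorem t_DET : S_DET := by
  classical
  intro α ρ m ω d e j hj hd e'
  haveI : Fintype (T ω (dn ω d j)) := Fintype.ofEquiv _ e'.symm
  obtain ⟨ψ, hψ⟩ := Det.exists_ψ e hj e'
  set a0 := e ⟨([], j), by simpa using hj⟩ with ha0
  refine ⟨(-1) ^ (a0 : ℕ) * ((Equiv.Perm.sign (ψ.trans e') : ℤˣ) : ℤ), ?_, ?_⟩
  · rcases neg_one_pow_eq_or ℤ (a0 : ℕ) with h | h <;>
      rcases Int.units_eq_one_or (Equiv.Perm.sign (ψ.trans e')) with h' | h' <;>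
      simp [h, h']
  · intro R _ x hx
    have hrow : ∀ b : Fin (m + 1), (Matrix.of fun k a : Fin (m + 1) =>
        wv x (e.symm k).1.1 (e.symm k).1.2 a) a0 b = if b = 0 then 1 else 0 := by
      intro b
      rw [Matrix.of_apply, ha0, Equiv.symm_apply_apply]
      show mv x j b = _
      exact hx b
    rw [fdet, Matrix.det_succ_row _ a0, Finset.sum_eq_single 0]
    rotate_left
    · intro b _ hb
      rw [hrow, if_neg hb]
      ring
    · simp
    rw [hrow, if_pos rfl]
    have hminor : (Matrix.of fun k a : Fin (m + 1) =>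
        wv x (e.symm k).1.1 (e.symm k).1.2 a).submatrix a0.succAbove (Fin.succAbove 0) =
        ((1 + (Det.N hd x : Matrix (T ω (dn ω d j)) (T ω (dn ω d j)) R)) *
          (Det.K' x : Matrix (T ω (dn ω d j)) (Fin m) R)).submatrix ψ id := by
      ext b c
      simp only [Matrix.submatrix_apply, id_eq, Matrix.of_apply]
      rw [hψ b, Equiv.symm_apply_apply, Fin.zero_succAbove, Det.row hd x hx, Matrix.add_mul,
        Matrix.one_mul, Matrix.add_apply, Matrix.mul_apply]
    rw [hminor]
    have h1 : ((1 + (Det.N hd x : Matrix (T ω (dn ω d j)) (T ω (dn ω d j)) R)) *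
          (Det.K' x : Matrix (T ω (dn ω d j)) (Fin m) R)).submatrix ψ id =
        ((1 + (Det.N hd x : Matrix (T ω (dn ω d j)) (T ω (dn ω d j)) R)).submatrix ψ ψ) *
          ((Matrix.of fun k a : Fin m =>
            wv (nx j x) (e'.symm k).1.1 (e'.symm k).1.2 a).submatrix (ψ.trans e') id) := by
      rw [← Matrix.submatrix_mul_equiv _ _ ψ ψ id]
      congr 1
      ext b c
      simp [Det.K']
    rw [h1, Matrix.det_mul, Matrix.det_submatrix_equiv_self, Det.det_one_add_N, Matrix.det_permute,
      fdet]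
    push_cast
    simp only [Fin.val_zero, add_zero]
    ring

end Pool.Agent.K1H67.KG
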